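import Mathlib
import Pool.Agent.X203.GreenConc

/-!
# Boundary continuity of Green functions on trees of finite cone type (Q1, proved)

The weighted space `ℓ²(V, ν)` is `L2 ν`, the `ℓ²`-direct sum of the one dimensional Hilbert spaces
`WC (ν x)`, which are copies of `ℂ` with inner product `⟨a, b⟩ = ν x * conj a * b`.
-/

namespace Pool.Agent.Results.MP_ae9099_mp.FiniteConeGreen

open scoped ComplexConjugate Topology
open Filter Set
open Pool.Agent.X203.GreenConc (WC RootedTree IsConeTree)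

/-- The weighted space `ℓ²(V, ν)`. -/
def L2 {V : Type*} (ν : V → {c : ℝ // 0 < c}) : Type _ := lp (fun x => WC (ν x)) 2

noncomputable instance instL2N {V : Type*} (ν : V → {c : ℝ // 0 < c}) :
    NormedAddCommGroup (L2 ν) :=
  (inferInstance : NormedAddCommGroup (lp (fun x => WC (ν x)) 2))

noncomputable instance instL2I {V : Type*} (ν : V → {c : ℝ // 0 < c}) :
    InnerProductSpace ℂ (L2 ν) :=
  (inferInstance : InnerProductSpace ℂ (lp (fun x => WC (ν x)) 2))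

instance instL2C {V : Type*} (ν : V → {c : ℝ // 0 < c}) : CompleteSpace (L2 ν) :=
  (inferInstance : CompleteSpace (lp (fun x => WC (ν x)) 2))

/-- bounded operators on `ℓ²(V, ν)` -/
def Op {V : Type*} (ν : V → {c : ℝ // 0 < c}) : Type _ := L2 ν →L[ℂ] L2 ν

/-- `S φ` -/
noncomputable def Op.app {V : Type*} {ν : V → {c : ℝ // 0 < c}} (S : Op ν) (φ : L2 ν) : L2 ν :=
  (show L2 ν →L[ℂ] L2 ν from S) φ

/-- the inner product `⟨φ, ψ⟩ = ∑ ν(x) conj φ(x) ψ(x)` of `ℓ²(V, ν)` -/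
noncomputable def ip {V : Type*} {ν : V → {c : ℝ // 0 < c}} (φ ψ : L2 ν) : ℂ := inner ℂ φ ψ

/-- self-adjointness of a bounded operator -/
def Op.SelfAdjoint {V : Type*} {ν : V → {c : ℝ // 0 < c}} (S : Op ν) : Prop :=
  ∀ φ ψ : L2 ν, ip (S.app φ) ψ = ip φ (S.app ψ)

/-- `(S - z)⁻¹ φ`, the preimage of `φ` under the map `ψ ↦ S ψ - z ψ` (which is bijective when `S`
is self-adjoint and `z` is not real) -/
noncomputable def Op.resolv {V : Type*} {ν : V → {c : ℝ // 0 < c}} (S : Op ν) (z : ℂ) (φ : L2 ν) :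
    L2 ν :=
  haveI : Nonempty (L2 ν) := ⟨0⟩
  Function.invFun (fun ψ : L2 ν => S.app ψ - z • ψ) φ

/-- the value `φ(x)` -/
def val {V : Type*} {ν : V → {c : ℝ // 0 < c}} (φ : L2 ν) (x : V) : ℂ :=
  ((show lp (fun x => WC (ν x)) 2 from φ) x).toC

open Classical in
/-- the function `δ_x`, equal to `1` at `x` and `0` elsewhere -/
noncomputable def delta {V : Type*} (ν : V → {c : ℝ // 0 < c}) (x : V) : L2 ν :=
  (lp.single 2 x (show WC (ν x) from (1 : ℂ)) : lp (fun x => WC (ν x)) 2)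

/-- the operator `S` is given by `(S φ)(x) = ∑_{y ∼ x} t(x,y) φ(y) + w(x) φ(x)` -/
def GivenBy {V : Type*} {ν : V → {c : ℝ // 0 < c}} (adj : V → V → Prop) (t : V → V → ℂ)
    (w : V → ℝ) (S : Op ν) : Prop :=
  ∀ φ x, val (S.app φ) x = (∑ᶠ (y : V) (_ : adj x y), t x y * val φ y) + w x * val φ x

/-- the Green function `⟨δ_x, (S - z)⁻¹ δ_x⟩` -/
noncomputable def green {V : Type*} {ν : V → {c : ℝ // 0 < c}} (S : Op ν) (x : V) (z : ℂ) : ℂ :=
  ip (delta ν x) (S.resolv z (delta ν x))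

/-- `T` is a label invariant operator with coefficients `t`, `w` on the labelled tree. -/
structure LabelInvariant {A V : Type*} (M : Matrix A A ℕ) (τ : RootedTree V) (a : V → A)
    (ν : V → {c : ℝ // 0 < c}) (t : V → V → ℂ) (w : V → ℝ) (T : Op ν) : Prop where
  selfAdjoint : T.SelfAdjoint
  given : GivenBy τ.Adj t w T
  nonzero : ∀ x y, t x y ≠ 0 ↔ τ.Adj x y
  symm : ∀ x y, t x y * (ν x : ℝ) = conj (t y x) * (ν y : ℝ)
  inv : ∃ (m₂ : A → A → ℝ) (m₁ : A → ℝ),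
    (∀ x y, τ.Adj x y → ‖t x y‖ ^ 2 * M (a x) (a y) = m₂ (a x) (a y)) ∧ ∀ x, w x = m₁ (a x)

/-- `S` is the truncated operator `T_x` on `ℓ²(V_x, ν)`. -/
def IsTruncation {V : Type*} (τ : RootedTree V) {ν : V → {c : ℝ // 0 < c}} (t : V → V → ℂ)
    (w : V → ℝ) (x : V) (S : Op (fun u : τ.sub x => ν u)) : Prop :=
  GivenBy (fun u v : τ.sub x => τ.Adj u v) (fun u v => t u v) (fun u => w u) S

theorem bijective_sub {V : Type*} {ν : V → {c : ℝ // 0 < c}} {S : Op ν} (hS : S.SelfAdjoint)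
    {z : ℂ} (hz : z.im ≠ 0) : Function.Bijective (fun ψ : L2 ν => S.app ψ - z • ψ) := by
  have hsa : IsSelfAdjoint (show L2 ν →L[ℂ] L2 ν from S) := by
    rw [ContinuousLinearMap.isSelfAdjoint_iff_isSymmetric]
    exact hS
  refine ⟨fun ψ χ h => ?_, fun φ => ⟨_, Pool.Agent.X203.GreenTree.sub_Rz hsa hz φ⟩⟩
  have h1 := Pool.Agent.X203.GreenTree.Rz_eq hsa hz (f := S.app ψ - z • ψ) (g := ψ) rfl
  have h2 := Pool.Agent.X203.GreenTree.Rz_eq hsa hz (f := S.app ψ - z • ψ) (g := χ) h.symm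
  rw [h1, h2]

theorem green_eq {V : Type*} {ν : V → {c : ℝ // 0 < c}} {S : Op ν} (hS : S.SelfAdjoint)
    {z : ℂ} (hz : z.im ≠ 0) (x : V) :
    Pool.Agent.X203.GreenConc.green (ν := ν) (show L2 ν →L[ℂ] L2 ν from S) x z = green S x z := by
  have hsa : IsSelfAdjoint (show L2 ν →L[ℂ] L2 ν from S) := by
    rw [ContinuousLinearMap.isSelfAdjoint_iff_isSymmetric]
    exact hS
  have h1 : S.resolv z (delta ν x)
      = Pool.Agent.X203.GreenTree.Rz (show L2 ν →L[ℂ] L2 ν from S) z (delta ν x) := by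
    refine Pool.Agent.X203.GreenTree.Rz_eq hsa hz ?_
    have : Nonempty (L2 ν) := ⟨0⟩
    exact Function.invFun_eq ((bijective_sub hS hz).2 (delta ν x))
  unfold green
  rw [h1]
  rfl

/-- **MP_ae9099_mp, Q1 (proved).** -/
theorem result {A : Type*} [Fintype A] [DecidableEq A] (M : Matrix A A ℕ)
    (hM1 : ∀ j, 1 ≤ M j j) (hM2 : ∃ n, ∀ j k, 0 < (M ^ n) j k) (j : A)
    {V : Type*} (τ : RootedTree V) (a : V → A) (hτ : IsConeTree M j τ a)
    (ν : V → {c : ℝ // 0 < c}) (hν : ∀ x y, a x = a y → ν x = ν y)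
    (t : V → V → ℂ) (w : V → ℝ) (T : Op ν) (hT : LabelInvariant M τ a ν t w T)
    (x : V) :
    (∃ S, IsTruncation τ t w x (ν := ν) S) ∧
    ∀ S, IsTruncation τ t w x (ν := ν) S →
      ∃ gΓ gG : ℝ → ℂ, Continuous gΓ ∧ Continuous gG ∧
        (∀ E : ℝ, Tendsto (fun η : ℝ => green S ⟨x, τ.mem_sub x⟩ (E + η * Complex.I))
          (𝓝[>] 0) (𝓝 (gΓ E))) ∧
        (∀ E : ℝ, Tendsto (fun η : ℝ => green T x (E + η * Complex.I)) (𝓝[>] 0) (𝓝 (gG E))) ∧
        (∀ E : ℝ, Tendsto (green S ⟨x, τ.mem_sub x⟩) (𝓝[{z : ℂ | 0 < z.im}] (E : ℂ))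
          (𝓝 (gΓ E))) ∧
        (∀ E : ℝ, Tendsto (green T x) (𝓝[{z : ℂ | 0 < z.im}] (E : ℂ)) (𝓝 (gG E))) := by
  have hsa : IsSelfAdjoint (show L2 ν →L[ℂ] L2 ν from T) := by
    rw [ContinuousLinearMap.isSelfAdjoint_iff_isSymmetric]
    exact hT.selfAdjoint
  have key := Pool.Agent.X203.GreenConc.result_conc M hM1 hM2 j τ a hτ ν hν t w T
    ⟨hsa, hT.given, hT.nonzero, hT.symm, hT.inv⟩ x
  refine ⟨key.1, fun S hS => ?_⟩
  obtain ⟨gΓ, gG, h1, h2, h3, h4, h5, h6⟩ := key.2 S hS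
  have hSsa : S.SelfAdjoint := by
    have h7 : IsSelfAdjoint (show L2 (fun u : τ.sub x => ν u) →L[ℂ] L2 (fun u : τ.sub x => ν u)
        from S) := Pool.Agent.X203.GreenConc.truncation_sa (T := T) hT.given hsa x hS
    exact h7.isSymmetric
  refine ⟨gΓ, gG, h1, h2, fun E => (h3 E).congr' ?_, fun E => (h4 E).congr' ?_,
    fun E => (h5 E).congr' ?_, fun E => (h6 E).congr' ?_⟩
  · filter_upwards [self_mem_nhdsWithin] with η hη
    exact green_eq hSsa (by simpa using (ne_of_gt hη)) _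
  · filter_upwards [self_mem_nhdsWithin] with η hη
    exact green_eq hT.selfAdjoint (by simpa using (ne_of_gt hη)) _
  · filter_upwards [self_mem_nhdsWithin] with z hz
    exact green_eq hSsa (ne_of_gt hz) _
  · filter_upwards [self_mem_nhdsWithin] with z hz
    exact green_eq hT.selfAdjoint (ne_of_gt hz) _

end Pool.Agent.Results.MP_ae9099_mp.FiniteConeGreen
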